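import Pool.Agent.HMB.FinalC

set_option autoImplicit false

open Pool.Agent.MHN Pool.Agent.HMB

/-- Let `G` be a group with a finite generating set `S`, not word-hyperbolic, and `H` an infinite
normal subgroup of `G`.
(a) For every gauge `M` and every `k` some element of `H` is not a product of `k` elements of `G`
which are `M`-Morse.
Let `A` be a finite generating set of `H` whose word metric is hyperbolic.
(b) The set of points of the Gromov boundary of `H` which are sublinearly Morse in `G` is meagre.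
(c) For every gauge `M` the `M`-Morse points are uniformly porous: near every ray `ρ₀` and at every
scale `n` there is a ray `ρ` such that, at the scale `n + N`, no `M`-Morse ray is near `ρ`. -/
theorem Pool.Agent.Results.MP_55d5bf_al.MeagreMorseBoundary.result.{u} :
    ∀ (G : Type u) [Group G] (S : Finset G), Gen S → ¬ IsHyperbolicGroup G →
      ∀ (H : Subgroup G), H.Normal → Infinite H →
        (∀ (M : ℝ → ℝ → ℝ) (k : ℕ), ∃ h ∈ H, ∀ l : List G, l.length = k →
          (∀ g ∈ l, IsMorseElt S M g) → l.prod ≠ h) ∧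
        ∀ (A : Finset H), Gen A → (∃ δ : ℝ, Hyp δ (wdist A)) →
          IsMeagre {ξ : Bdry A | IsSubMorsePoint S A ξ} ∧
          ∃ D : ℕ, ∀ (M : ℝ → ℝ → ℝ) (E : ℕ), ∃ N : ℕ, ∀ (ρ₀ : Ray A) (n : ℕ), ∃ ρ : Ray A,
            wdist A (ρ.1 n) (ρ₀.1 n) ≤ D ∧
              ∀ ρ' : Ray A, IsMorseRay S M ρ' → E < wdist A (ρ'.1 (n + N)) (ρ.1 (n + N)) := by
  intro G _ S hS hG H hn hinf
  have := hn
  refine ⟨fun M k => width hS H hinf hG M k, fun A hA hδ => ?_⟩
  obtain ⟨δ, hδ⟩ := hδ
  exact ⟨meagre_sub hS H hinf hA hδ hG, porous hS H hinf hA hδ hG⟩
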