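import Pool.Agent.MHN.Final

set_option autoImplicit false

open Pool.Agent.MHN

/-- Let `G` be a group with finite generating set `S`, `H` a normal subgroup of `G` that is
word-hyperbolic, and `h ∈ H` of infinite order. Then `h` is a Morse element of `G` if and only if
the cyclic group generated by `h` has finite index in the centralizer of `h` in `G`. -/
theorem Pool.Agent.Results.MP_55d5bf_al.MorseCriterion.result.{u} :
    ∀ (G : Type u) [Group G] (S : Finset G), Gen S → ∀ (H : Subgroup G), H.Normal →
      IsHyperbolicGroup H → ∀ h ∈ H, ¬ IsOfFinOrder h →
        (IsMorse S h ↔ (Subgroup.zpowers h).relIndex (Subgroup.centralizer {h}) ≠ 0) := by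
  intro G _ S hS H hn hH h hm hh
  have := hn
  exact criterion hS H hH h hm hh
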